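import Pool.Agent.Helper2.Tate.LFinal

/-!
# The Tate conjecture for the twists of the cyclic coverings of a surface

Let `F` be a finite field with `q` elements, `χ` a character of order `ℓ` (a prime) of the group
of `F`, `S` a smooth projective surface over `F`, `f` a form of degree divisible by `ℓ` and `C` the
curve `f = 0` on `S`, and let `Y_c`, `c` nonzero in `F`, be the cyclic covering `w ^ ℓ = c f` of `S`.

Let `Q_S`, `Q_C` and `Q_c` be the characteristic polynomials of the Frobenius on `H ^ 2(S)`,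
`H ^ 1(C)` and `H ^ 2(Y_c)`, let `A` be the product of the ones on `H ^ 1(S)` and `H ^ 3(S)` (the
same for `Y_c`), and let `R` be the polynomial of the `L`-function of `χ(f)` on `S - C`. Let `o` be
the order at `1` of `Q_S Q_C / A` modulo `ℓ`. Then the multiplicity of `q` as a root of `Q_c` is the
one of `Q_S` plus `(ℓ - 1) N_c` where the sum of the `N_c` is at most `o (q - 1) / ℓ`. So, if the
Tate conjecture for divisors holds for `S` then it holds for `Y_c` for all `c` but at most
`o (q - 1) / ℓ`, that is for all classes modulo `ℓ`-th powers but at most `o`. For the plane `o` is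
`1` plus the order at `1` of `Q_C` modulo `ℓ`.
-/

set_option autoImplicit false

namespace Pool.Agent.Results.MP_8ac872_ag.Twists

open Pool.Agent.Helper2.Tate Polynomial

theorem result (F : Type) [Field F] [Fintype F] (ℓ : ℕ) (hℓ : ℓ.Prime)
    (χ : MulChar F (AlgebraicClosure ℚ)) (hχ : orderOf χ = ℓ)
    {r : ℕ} (S : Set (MvPolynomial (Fin r) F)) (f : MvPolynomial (Fin r) F)
    (A QS QC : ℤ[X]) (Q : F → ℤ[X]) (R : (AlgebraicClosure ℚ)[X])
    (hS : IsFrobSurface (Fintype.card F) (fun n => (points F S n).ncard) QS A)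
    (hC : IsFrobOne (Fintype.card F) (fun n => (points F (insert f S) n).ncard) QC)
    (hQ : ∀ c : F, c ≠ 0 → IsFrobSurface (Fintype.card F)
      (fun n => (coverPoints F ℓ S (MvPolynomial.C c * f) n).ncard) (Q c) A)
    (hR : IsLPolynomial F ℓ χ S f R) :
    ∃ (N : F → ℕ) (o : ℕ), o + ordOne ℓ A = ordOne ℓ QS + ordOne ℓ QC ∧
      (∀ c : F, c ≠ 0 → mult (Fintype.card F) (Q c) 1 =
        mult (Fintype.card F) QS 1 + (ℓ - 1) * N c) ∧
      ℓ * ∑ c : F, N c ≤ (Fintype.card F - 1) * o ∧
      ℓ * {c : F | c ≠ 0 ∧ mult (Fintype.card F) (Q c) 1 ≠ mult (Fintype.card F) QS 1}.ncard ≤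
        (Fintype.card F - 1) * o ∧
      ∀ c : F, c ≠ 0 → ∀ j : ℕ,
        mult (Fintype.card F) (Q c) (ℓ ^ j) ≤ ordOne ℓ QS + (ℓ - 1) * o :=
  twists_general F ℓ hℓ χ hχ S f A QS QC Q R hS hC hQ hR

end Pool.Agent.Results.MP_8ac872_ag.Twists
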